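import Pool.Agent.QSX.StmtsA

/-!
# Squad QSX, row GMX: the elements of `Γ` are exponentials of elements of `n_X`
-/

set_option autoImplicit false

namespace Pool.Agent.QSX.H17

open Matrix Finset Pool.Agent.QSX

theorem gmx (hL : LgpStmt) : GmxStmt := by
  intro X hX
  obtain ⟨G, hG⟩ := hL ℝ X.m X.n X.su X.lie
  have hle : hX.Gam ≤ G := by
    refine (Subgroup.closure_le G).2 ?_
    rintro g ⟨l, x, rfl⟩
    refine (hG _).2 ⟨(x : ℝ) • hX.e l, X.n.smul_mem _ ?_, rfl⟩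
    rw [← hX.span_e]
    exact Submodule.subset_span ⟨l, rfl⟩
  have h1 : ∀ g ∈ hX.Gam, ∃ z ∈ X.n, g = ue z := fun g hg => (hG g).1 (hle hg)
  refine ⟨h1, ?_⟩
  intro n hn n' hn'
  obtain ⟨z, hz, hzz⟩ := h1 (n⁻¹ * n') (hX.Gam.mul_mem (hX.Gam.inv_mem hn) hn')
  refine ⟨z, ?_, ?_⟩
  · rw [Set.image_univ, hX.span_e]
    exact hz
  · rw [← hzz, mul_inv_cancel_left]

end Pool.Agent.QSX.H17
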